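import Pool.Agent.MP_0f3202_lc.Defs

/-! Dual adversary solutions for small formulas. -/

namespace Pool.Agent.MP0f3202

open Finset

variable {I : Type}

/-- dual adversary solution with weights `W0` on zeros and `W1` on ones -/
def Adv (f : (I → Bool) → Bool) (W0 W1 : ℝ) : Prop :=
  ∃ (ι : Type) (_ : Fintype ι) (var : ι → I) (w : (I → Bool) → ι → ℝ),
    (∀ y, ∑ a, w y a ^ 2 ≤ if f y then W1 else W0) ∧
    ∀ y y', f y ≠ f y' → ∑ a, (if y (var a) = y' (var a) then 0 else w y a * w y' a) = 1

/-- all weight pairs with product at least `P` are feasible -/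
def A (f : (I → Bool) → Bool) (P : ℝ) : Prop :=
  ∀ W0 W1 : ℝ, 0 < W0 → 0 < W1 → P ≤ W0 * W1 → Adv f W0 W1

theorem A.mono {f : (I → Bool) → Bool} {P Q : ℝ} (h : A f P) (hP : P ≤ Q) : A f Q :=
  fun W0 W1 h0 h1 hW => h W0 W1 h0 h1 (hP.trans hW)

theorem A.const (c : Bool) (P : ℝ) : A (fun _ : I → Bool => c) P := by
  intro W0 W1 h0 h1 _
  refine ⟨Empty, inferInstance, fun a => a.elim, fun _ a => a.elim, fun y => ?_, fun y y' h => (h rfl).elim⟩
  cases c <;> simp [h0.le, h1.le]

theorem A.leaf (i : I) : A (fun y : I → Bool => y i) 1 := by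
  intro W0 W1 h0 h1 hW
  have hs : 0 < √W1 := Real.sqrt_pos.2 h1
  refine ⟨Unit, inferInstance, fun _ => i, fun y _ => if y i then √W1 else 1 / √W1, fun y => ?_,
    fun y y' h => ?_⟩
  · cases hy : y i
    · simp only [univ_unique, sum_singleton, hy, Bool.false_eq_true, if_false, div_pow, one_pow,
        Real.sq_sqrt h1.le]
      rw [div_le_iff₀ h1]; exact hW
    · simp [hy, Real.sq_sqrt h1.le]
  · cases hy : y i <;> cases hy' : y' i <;> simp_all [hs.ne']

theorem A.reindex {I' : Type} {f : (I → Bool) → Bool} {P : ℝ} (h : A f P) (e : I → I') :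
    A (fun y : I' → Bool => f (fun i => y (e i))) P := by
  intro W0 W1 h0 h1 hW
  obtain ⟨ι, hι, var, w, hw, hc⟩ := h W0 W1 h0 h1 hW
  exact ⟨ι, hι, fun a => e (var a), fun y => w (fun i => y (e i)), fun y => hw _,
    fun y y' hy => hc _ _ hy⟩

theorem A.not {f : (I → Bool) → Bool} {P : ℝ} (h : A f P) : A (fun y => !f y) P := by
  intro W0 W1 h0 h1 hW
  obtain ⟨ι, hι, var, w, hw, hc⟩ := h W1 W0 h1 h0 (by rwa [mul_comm])
  refine ⟨ι, hι, var, w, fun y => ?_, fun y y' hy => hc y y' (fun e => hy (by simp [e]))⟩
  have := hw y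
  cases hf : f y <;> simpa [hf] using this

theorem A.un {f : (I → Bool) → Bool} {P : ℝ} (h : A f P) (p q : Bool) :
    A (fun y => if f y then p else q) P := by
  cases p <;> cases q
  · simpa using A.const false P
  · have := h.not
    simpa using this
  · simpa using h
  · simpa using A.const true P

theorem A.and {f g : (I → Bool) → Bool} {P : ℝ} (hf : A f P) (hg : A g P) :
    A (fun y => f y && g y) (2 * P) := by
  intro W0 W1 h0 h1 hW
  obtain ⟨ι, hι, var, w, hw, hc⟩ := hf W0 (W1 / 2) h0 (by positivity) (by linarith)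
  obtain ⟨κ, hκ, var', w', hw', hc'⟩ := hg W0 (W1 / 2) h0 (by positivity) (by linarith)
  refine ⟨ι ⊕ κ, inferInstance, Sum.elim var var',
    fun y => Sum.elim (fun a => if f y = true ∧ g y = false then 0 else w y a)
      (fun a => if f y = false then 0 else w' y a), fun y => ?_, fun y y' hy => ?_⟩
  · have a1 := hw y
    have a2 := hw' y
    rw [Fintype.sum_sum_type]
    cases h1 : f y <;> cases h2 : g y <;> simp [h1, h2] at a1 a2 ⊢ <;> linarith
  · have a1 := hc y y'
    have a2 := hc' y y'
    rw [Fintype.sum_sum_type]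
    cases h1 : f y <;> cases h2 : g y <;> cases h3 : f y' <;> cases h4 : g y' <;>
      simp [h1, h2, h3, h4] at a1 a2 hy ⊢ <;> assumption

theorem Adv.scale {f : (I → Bool) → Bool} {a b t : ℝ} (h : Adv f a b) (ht : 0 < t) :
    Adv f (a * t) (b / t) := by
  obtain ⟨ι, hι, var, w, hw, hc⟩ := h
  have hs : 0 < √t := Real.sqrt_pos.2 ht
  refine ⟨ι, hι, var, fun y c => (if f y then 1 / √t else √t) * w y c, fun y => ?_,
    fun y y' hy => ?_⟩
  · have := hw y
    simp only [mul_pow, ← mul_sum]
    cases hf : f y
    · simp only [hf, Bool.false_eq_true, if_false, Real.sq_sqrt ht.le] at this ⊢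
      nlinarith
    · simp only [hf, if_true, div_pow, one_pow, Real.sq_sqrt ht.le] at this ⊢
      rw [div_mul_eq_mul_div, one_mul]
      gcongr
  · refine Eq.trans (sum_congr rfl fun c _ => ?_) (hc y y' hy)
    by_cases h1 : y (var c) = y' (var c)
    · simp [h1]
    · simp only [h1, if_false]
      cases h2 : f y <;> cases h3 : f y' <;> simp only [h2, h3] at hy ⊢
      · exact (hy rfl).elim
      · simp only [Bool.false_eq_true, if_false, if_true]; field_simp
      · simp only [Bool.false_eq_true, if_false, if_true]; field_simp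
      · exact (hy rfl).elim

theorem A.parity {f g : (I → Bool) → Bool} {P : ℝ} (hf : A f P) (hg : A g P) :
    A (fun y => xor (f y) (g y)) (4 * P) := by
  intro W0 W1 h0 h1 hW
  have hp : 0 < W0 * W1 := mul_pos h0 h1
  have hs : 0 < √(W0 * W1) := Real.sqrt_pos.2 hp
  have hq : √(W0 * W1) * √(W0 * W1) = W0 * W1 := Real.mul_self_sqrt hp.le
  set W := √(W0 * W1)
  obtain ⟨ι, hι, var, w, hw, hc⟩ := hf (W / 2) (W / 2) (by positivity) (by positivity) (by nlinarith)
  obtain ⟨κ, hκ, var', w', hw', hc'⟩ := hg (W / 2) (W / 2) (by positivity) (by positivity)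
    (by nlinarith)
  have key : Adv (fun y => xor (f y) (g y)) W W := by
    refine ⟨Bool × ι ⊕ Bool × κ, inferInstance, Sum.elim (fun a => var a.2) (fun a => var' a.2),
      fun y => Sum.elim (fun a => if g y = a.1 then w y a.2 else 0)
        (fun a => if f y = a.1 then w' y a.2 else 0), fun y => ?_, fun y y' hy => ?_⟩
    · have a1 := hw y
      have a2 := hw' y
      rw [Fintype.sum_sum_type, Fintype.sum_prod_type, Fintype.sum_prod_type]
      cases h1 : f y <;> cases h2 : g y <;> simp [h1, h2] at a1 a2 ⊢ <;> linarith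
    · have a1 := hc y y'
      have a2 := hc' y y'
      rw [Fintype.sum_sum_type, Fintype.sum_prod_type, Fintype.sum_prod_type]
      cases h1 : f y <;> cases h2 : g y <;> cases h3 : f y' <;> cases h4 : g y' <;>
        simp [h1, h2, h3, h4] at a1 a2 hy ⊢ <;> assumption
  have := key.scale (t := W0 / W) (by positivity)
  have e1 : W * (W0 / W) = W0 := by field_simp
  have e2 : W / (W0 / W) = W1 := by
    field_simp
    nlinarith
  rwa [e1, e2] at this

theorem A.gate {f g : (I → Bool) → Bool} {P : ℝ} (hf : A f P) (hg : A g P)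
    (op : Bool → Bool → Bool) :
    A (fun y => op (f y) (g y)) (2 ^ (1 + if isX op then 1 else 0) * P) := by
  have h1 : ∀ o1 o2 o3 o4 : Bool, (o1 == o4 && o2 == o3 && o1 != o2) = false →
      ∃ p q p1 q1 p2 q2 : Bool, ∀ a b : Bool,
        (if a then (if b then o4 else o3) else (if b then o2 else o1)) =
          if ((if a then p1 else q1) && (if b then p2 else q2)) then p else q := by decide
  have h2 : ∀ o1 o2 o3 o4 : Bool, (o1 == o4 && o2 == o3 && o1 != o2) = true →
      ∀ a b : Bool, (if a then (if b then o4 else o3) else (if b then o2 else o1)) =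
          if xor a b then o2 else o1 := by decide
  have h3 : ∀ a b, op a b = if a then (if b then op true true else op true false)
      else (if b then op false true else op false false) := by
    intro a b; cases a <;> cases b <;> simp
  cases hx : isX op
  · obtain ⟨p, q, p1, q1, p2, q2, h⟩ := h1 _ _ _ _ hx
    have := ((hf.un p1 q1).and (hg.un p2 q2)).un p q
    have e : (fun y => op (f y) (g y)) = fun y =>
        if ((if f y then p1 else q1) && (if g y then p2 else q2)) then p else q := by
      funext y; rw [h3, h]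
    rw [e]; simpa using this
  · have := (hf.parity hg).un (op false true) (op false false)
    have e : (fun y => op (f y) (g y)) = fun y =>
        if xor (f y) (g y) then op false true else op false false := by
      funext y; rw [h3, h2 _ _ _ _ hx]
    rw [e]
    refine this.mono (le_of_eq ?_)
    norm_num

end Pool.Agent.MP0f3202
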