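import Pool.Agent.MP_0f3202_lc.Adv

/-! From a dual adversary solution to an approximating sum of juntas. -/

namespace Pool.Agent.MP0f3202

open Finset

variable {I : Type}

/-- sums of `T`-juntas -/
def Deg [Fintype I] (T : ℕ) (g : (I → Bool) → ℝ) : Prop :=
  ∃ c : (Fin T → I) → (Fin T → Bool) → ℝ, ∀ y, g y = ∑ J : Fin T → I, c J (fun a => y (J a))

theorem Deg.comb [Fintype I] {T : ℕ} {κ : Type} (S : Finset κ) (r : κ → ℝ)
    {g : κ → (I → Bool) → ℝ} (h : ∀ a ∈ S, Deg T (g a)) : Deg T (fun y => ∑ a ∈ S, r a * g a y) := by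
  choose! c hc using h
  refine ⟨fun J z => ∑ a ∈ S, r a * c a J z, fun y => ?_⟩
  rw [sum_comm]
  refine sum_congr rfl fun a ha => ?_
  rw [hc a ha, mul_sum]

theorem Deg.step [Fintype I] [DecidableEq I] {T : ℕ} {g : (I → Bool) → ℝ} (h : Deg T g) (i : I)
    (s : Bool → ℝ) : Deg (T + 1) (fun y => s (y i) * g y) := by
  obtain ⟨c, hc⟩ := h
  refine ⟨fun J z => if J 0 = i then s (z 0) * c (Fin.tail J) (Fin.tail z) else 0, fun y => ?_⟩
  rw [← (Fin.consEquiv (fun _ : Fin (T + 1) => I)).sum_comp, Fintype.sum_prod_type]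
  beta_reduce
  rw [hc, mul_sum, sum_comm]
  refine sum_congr rfl fun J _ => ?_
  simp only [Fin.consEquiv_apply, Fin.cons_zero]
  rw [sum_eq_single i]
  · simp only [if_true]
    rfl
  · intro b _ hb
    simp [hb]
  · simp

theorem Deg.mono [Fintype I] [DecidableEq I] [Inhabited I] {j T : ℕ} {g : (I → Bool) → ℝ}
    (h : Deg j g) (hj : j ≤ T) : Deg T g := by
  induction T, hj using Nat.le_induction with
  | base => exact h
  | succ T _ ih => simpa using ih.step default (fun _ => 1)

section walk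

variable {C : Type} [Fintype C]

/-- a diagonal map -/
def dia (s : C → ℝ) : Module.End ℝ (EuclideanSpace ℝ C) where
  toFun v := WithLp.toLp 2 fun c => s c * v c
  map_add' u v := by ext c; simp [mul_add]
  map_smul' r v := by ext c; simp [mul_left_comm]

omit [Fintype C] in
theorem dia_apply (s : C → ℝ) (v : EuclideanSpace ℝ C) (c : C) : dia s v c = s c * v c := rfl

theorem dia_norm {s : C → ℝ} (hs : ∀ c, s c ^ 2 = 1) (v : EuclideanSpace ℝ C) :
    ‖dia s v‖ = ‖v‖ := by
  rw [EuclideanSpace.norm_eq, EuclideanSpace.norm_eq]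
  congr 1
  refine sum_congr rfl fun c _ => ?_
  rw [dia_apply, Real.norm_eq_abs, Real.norm_eq_abs, sq_abs, sq_abs, mul_pow, hs, one_mul]

theorem pow_norm {U : Module.End ℝ (EuclideanSpace ℝ C)} (hU : ∀ v, ‖U v‖ = ‖v‖) (j : ℕ) :
    ∀ v, ‖(U ^ j) v‖ = ‖v‖ := by
  induction j with
  | zero => simp
  | succ j ih => intro v; rw [pow_succ, Module.End.mul_apply, ih, hU]

theorem walk0 {U : Module.End ℝ (EuclideanSpace ℝ C)} (hU : ∀ v, ‖U v‖ = ‖v‖)
    {ψ e : EuclideanSpace ℝ C} (he : ψ - U ψ = (2 : ℝ) • e) (o : C) (T : ℕ) :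
    |∑ j ∈ range T, ((U ^ j) e) o| ≤ ‖ψ‖ := by
  have htel : 2 * ∑ j ∈ range T, ((U ^ j) e) o = ψ o - ((U ^ T) ψ) o := by
    have := sum_range_sub' (fun j => ((U ^ j) ψ) o) T
    simp only [pow_zero, Module.End.one_apply] at this
    rw [← this, mul_sum]
    refine sum_congr rfl fun j _ => ?_
    rw [pow_succ, Module.End.mul_apply, ← PiLp.sub_apply, ← map_sub, he, map_smul]
    simp
  have b1 : |ψ o| ≤ ‖ψ‖ := PiLp.norm_apply_le ψ o
  have b2 : |((U ^ T) ψ) o| ≤ ‖ψ‖ := (PiLp.norm_apply_le _ o).trans (pow_norm hU T ψ).le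
  rw [abs_le] at b1 b2 ⊢
  constructor <;> linarith [b1.1, b1.2, b2.1, b2.2]

theorem walk1 {U : Module.End ℝ (EuclideanSpace ℝ C)} (hU : ∀ v, ‖U v‖ = ‖v‖)
    {φ : EuclideanSpace ℝ C} (he : U φ = φ) (e : EuclideanSpace ℝ C) (o : C) (j : ℕ) :
    |((U ^ j) e) o - φ o| ≤ ‖φ - e‖ := by
  have hej : ∀ j, (U ^ j) φ = φ := by
    intro j
    induction j with
    | zero => simp
    | succ j ih => rw [pow_succ, Module.End.mul_apply, he, ih]
  have b : |((U ^ j) (φ - e)) o| ≤ ‖φ - e‖ :=
    (PiLp.norm_apply_le _ o).trans (pow_norm hU j _).le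
  rwa [map_sub, hej, PiLp.sub_apply, abs_sub_comm] at b

theorem end_apply [DecidableEq C] (R : Module.End ℝ (EuclideanSpace ℝ C)) (v : EuclideanSpace ℝ C)
    (c : C) : R v c = ∑ c', R (EuclideanSpace.single c' 1) c * v c' := by
  have h := (EuclideanSpace.basisFun C ℝ).sum_repr v
  conv_lhs => rw [← h]
  rw [map_sum, WithLp.ofLp_sum, Finset.sum_apply]
  refine sum_congr rfl fun c' _ => ?_
  rw [map_smul, PiLp.smul_apply, smul_eq_mul, mul_comm, EuclideanSpace.basisFun_apply,
    EuclideanSpace.basisFun_repr]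

theorem walk_deg [Fintype I] [DecidableEq I] (R : Module.End ℝ (EuclideanSpace ℝ C))
    (sg : C → Bool → ℝ) (vr : C → I) (e : EuclideanSpace ℝ C) (j : ℕ) :
    ∀ c, Deg j (fun y => (((dia (fun c => sg c (y (vr c))) * R) ^ j) e) c) := by
  classical
  induction j with
  | zero => intro c; exact ⟨fun _ _ => e c, fun y => by simp⟩
  | succ j ih =>
    intro c
    have := (Deg.comb univ (fun c' => R (EuclideanSpace.single c' 1) c)
      (fun c' _ => ih c')).step (vr c) (sg c)
    have e2 : (fun y : I → Bool => (((dia (fun c => sg c (y (vr c))) * R) ^ (j + 1)) e) c) =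
        fun y => sg c (y (vr c)) * ∑ c', R (EuclideanSpace.single c' 1) c *
          (((dia (fun c => sg c (y (vr c))) * R) ^ j) e) c' := by
      funext y
      rw [pow_succ', Module.End.mul_apply, Module.End.mul_apply, dia_apply, end_apply]
    rw [e2]; exact this

end walk

/-- the vectors of the walk -/
def vec {ι : Type} (var : ι → I) (w : (I → Bool) → ι → ℝ) (s : ℝ) (b : Bool) (y : I → Bool) :
    EuclideanSpace ℝ (Option (Bool × ι)) :=
  WithLp.toLp 2 fun c => c.elim 1 fun a => if a.1 = xor b (y (var a.2)) then s * w y a.2 else 0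

/-- the start vector -/
def ev0 (ι : Type) : EuclideanSpace ℝ (Option (Bool × ι)) :=
  WithLp.toLp 2 fun c => c.elim 1 fun _ => 0

/-- the signs -/
def sgn {ι : Type} (c : Option (Bool × ι)) (b : Bool) : ℝ :=
  c.elim 1 fun a => if a.1 = b then 1 else -1

theorem approx [Fintype I] [DecidableEq I] [Inhabited I] {f : (I → Bool) → Bool} {W ε : ℝ}
    (hε : 0 < ε) (h : Adv f W (ε ^ 2)) {T : ℕ} (hT : 0 < T) (hW : 1 + W ≤ (T * ε) ^ 2) :
    ∃ g, Deg T g ∧ ∀ y, |g y - if f y then 1 else 0| ≤ ε := by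
  obtain ⟨ι, hι, var, w, hw, hc⟩ := h
  obtain ⟨K, hKd⟩ : ∃ K : Submodule ℝ (EuclideanSpace ℝ (Option (Bool × ι))),
      K = Submodule.span ℝ {v | ∃ y, f y = true ∧ v = vec var w (-1) false y} := ⟨_, rfl⟩
  obtain ⟨vr, hvr⟩ : ∃ vr : Option (Bool × ι) → I, ∀ a, vr (some a) = var a.2 :=
    ⟨fun c => c.elim default fun a => var a.2, fun _ => rfl⟩
  obtain ⟨R, hR⟩ : ∃ R : Module.End ℝ (EuclideanSpace ℝ (Option (Bool × ι))),
      ∀ v, R v = K.reflection v := ⟨K.reflection.toLinearEquiv.toLinearMap, fun _ => rfl⟩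
  have hsg : ∀ (c : Option (Bool × ι)) b, sgn c b ^ 2 = 1 := by
    intro c b
    cases c with
    | none => simp [sgn]
    | some a => simp only [sgn, Option.elim]; split_ifs <;> norm_num
  have hn : ∀ (y : I → Bool) v, ‖(dia (fun c => sgn c (y (vr c))) * R) v‖ = ‖v‖ := by
    intro y v
    rw [Module.End.mul_apply, dia_norm (fun c => hsg c _), hR, LinearIsometryEquiv.norm_map]
  have hnv : ∀ s b y, s ^ 2 = 1 → ‖vec var w s b y - ev0 ι‖ ^ 2 = ∑ a, w y a ^ 2 := by
    intro s b y hs
    rw [EuclideanSpace.norm_sq_eq, Fintype.sum_option, Fintype.sum_prod_type, sum_comm]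
    have e1 : ∀ a, ∑ b' : Bool, ‖(vec var w s b y - ev0 ι) (some (b', a))‖ ^ 2 = w y a ^ 2 := by
      intro a
      cases b <;> cases h1 : y (var a) <;> simp [vec, ev0, h1, mul_pow, hs]
    simp only [e1]
    simp [vec, ev0]
  refine ⟨fun y => ∑ j ∈ range T, (1 / (T : ℝ)) *
      (((dia (fun c => sgn c (y (vr c))) * R) ^ j) (ev0 ι)) none,
    Deg.comb _ _ fun j hj => (walk_deg R sgn vr (ev0 ι) j none).mono (mem_range.1 hj).le,
    fun y => ?_⟩
  have hT' : (0 : ℝ) < T := by exact_mod_cast hT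
  have hwy := hw y
  cases hf : f y
  · simp only [hf, Bool.false_eq_true, if_false, sub_zero] at hwy ⊢
    have hK : vec var w 1 true y ∈ Kᗮ := by
      rw [Submodule.mem_orthogonal, hKd]
      intro v hv
      induction hv using Submodule.span_induction with
      | mem v hv =>
        obtain ⟨y', hy', rfl⟩ := hv
        have := hc y y' (by simp [hf, hy'])
        rw [PiLp.inner_apply, Fintype.sum_option, Fintype.sum_prod_type, sum_comm]
        have e3 : ∀ a : ι, ∑ b : Bool, inner ℝ (vec var w (-1) false y' (some (b, a)))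
            (vec var w 1 true y (some (b, a))) =
            -(if y (var a) = y' (var a) then 0 else w y a * w y' a) := by
          intro a
          cases h1 : y (var a) <;> cases h2 : y' (var a) <;> simp [vec, h1, h2]
        simp only [e3, sum_neg_distrib, this]
        simp [vec]
      | zero => simp
      | add u v _ _ hu hv => rw [inner_add_left, hu, hv, add_zero]
      | smul r v _ hv => rw [inner_smul_left, hv, mul_zero]
    have he : vec var w 1 true y - (dia (fun c => sgn c (y (vr c))) * R) (vec var w 1 true y) =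
        (2 : ℝ) • ev0 ι := by
      rw [Module.End.mul_apply, hR, Submodule.reflection_mem_subspace_orthogonalComplement_eq_neg hK]
      ext c
      rw [PiLp.sub_apply, dia_apply]
      cases c with
      | none => simp [vec, sgn, ev0]; norm_num
      | some a =>
        cases h1 : y (var a.2) <;> cases h2 : a.1 <;> simp [vec, sgn, ev0, hvr, h1, h2]
    have hψn : ‖vec var w 1 true y‖ ≤ T * ε := by
      refine abs_le_of_sq_le_sq' ?_ (by positivity) |>.2
      have h1 := hnv 1 true y (by norm_num)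
      have h2 : ‖vec var w 1 true y‖ ^ 2 = 1 + ‖vec var w 1 true y - ev0 ι‖ ^ 2 := by
        rw [EuclideanSpace.norm_sq_eq, EuclideanSpace.norm_sq_eq, Fintype.sum_option,
          Fintype.sum_option]
        simp [vec, ev0]
      rw [h2, h1]; linarith
    rw [← mul_sum, abs_mul, abs_of_pos (by positivity : (0 : ℝ) < 1 / T), one_div,
      inv_mul_le_iff₀ hT']
    exact (walk0 (hn y) he none T).trans hψn
  · simp only [hf, if_true] at hwy ⊢
    have hK : vec var w (-1) false y ∈ K := hKd ▸ Submodule.subset_span ⟨y, hf, rfl⟩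
    have he : (dia (fun c => sgn c (y (vr c))) * R) (vec var w (-1) false y) =
        vec var w (-1) false y := by
      rw [Module.End.mul_apply, hR, Submodule.reflection_mem_subspace_eq_self hK]
      ext c
      rw [dia_apply]
      cases c with
      | none => simp [vec, sgn]
      | some a => cases h1 : y (var a.2) <;> cases h2 : a.1 <;> simp [vec, sgn, hvr, h1, h2]
    have hr : ‖vec var w (-1) false y - ev0 ι‖ ≤ ε := by
      refine abs_le_of_sq_le_sq' ?_ hε.le |>.2
      rw [hnv _ _ _ (by norm_num)]; exact hwy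
    have hj := fun j => (walk1 (hn y) he (ev0 ι) none j).trans hr
    have h1 : vec var w (-1) false y none = 1 := rfl
    rw [h1] at hj
    generalize (dia (fun c => sgn c (y (vr c))) * R) = U at hj
    have e4 : ∑ j ∈ range T, (1 / (T : ℝ)) * ((U ^ j) (ev0 ι)) none - 1 =
        ∑ j ∈ range T, (1 / (T : ℝ)) * (((U ^ j) (ev0 ι)) none - 1) := by
      simp only [mul_sub, sum_sub_distrib, mul_one, sum_const, card_range, nsmul_eq_mul]
      field_simp
    rw [e4]
    refine (abs_sum_le_sum_abs _ _).trans ?_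
    calc ∑ j ∈ range T, |(1 / (T : ℝ)) * (((U ^ j) (ev0 ι)) none - 1)|
        ≤ ∑ j ∈ range T, (1 / (T : ℝ)) * ε := by
          refine sum_le_sum fun j _ => ?_
          rw [abs_mul, abs_of_pos (by positivity : (0 : ℝ) < 1 / T)]
          gcongr
          exact hj j
      _ = ε := by simp only [sum_const, card_range, nsmul_eq_mul]; field_simp

theorem A.approx [Fintype I] [DecidableEq I] [Inhabited I] {f : (I → Bool) → Bool} {a τ : ℕ}
    (h : A f (2 ^ a)) :
    ∃ g, Deg (2 ^ (2 * τ + 7 + a / 2)) g ∧ ∀ y, |g y - if f y then 1 else 0| ≤ 1 / 2 ^ (τ + 3) := by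
  have hε : (0 : ℝ) < 1 / 2 ^ (τ + 3) := by positivity
  have h1 := h (2 ^ (a + 2 * (τ + 3))) ((1 / 2 ^ (τ + 3)) ^ 2) (by positivity) (by positivity)
    (le_of_eq (by rw [pow_add, pow_mul']; field_simp))
  exact Pool.Agent.MP0f3202.approx hε h1 (T := 2 ^ (2 * τ + 7 + a / 2))
    (by positivity) (by
      have e1 : ((2 ^ (2 * τ + 7 + a / 2) : ℕ) : ℝ) * (1 / 2 ^ (τ + 3)) = 2 ^ (τ + 4 + a / 2) := by
        push_cast
        rw [show 2 * τ + 7 + a / 2 = (τ + 4 + a / 2) + (τ + 3) by ring, pow_add]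
        field_simp
      rw [e1, ← pow_mul]
      have h2 : (2 : ℝ) ^ (a + 2 * (τ + 3) + 1) ≤ 2 ^ ((τ + 4 + a / 2) * 2) :=
        pow_le_pow_right₀ (by norm_num) (by omega)
      have h3 : (1 : ℝ) ≤ 2 ^ (a + 2 * (τ + 3)) := one_le_pow₀ (by norm_num)
      rw [pow_succ] at h2
      linarith)

theorem Deg.mul [Fintype I] {T T' : ℕ} {g h : (I → Bool) → ℝ} (hg : Deg T g) (hh : Deg T' h) :
    Deg (T + T') (fun y => g y * h y) := by
  obtain ⟨c, hc⟩ := hg
  obtain ⟨c', hc'⟩ := hh
  refine ⟨fun J z => c (fun a => J (Fin.castAdd T' a)) (fun a => z (Fin.castAdd T' a)) *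
    c' (fun a => J (Fin.natAdd T a)) (fun a => z (Fin.natAdd T a)), fun y => ?_⟩
  rw [← (Fin.appendEquiv T T').sum_comp, Fintype.sum_prod_type]
  beta_reduce
  rw [hc, hc', sum_mul_sum]
  simp [Fin.appendEquiv]

theorem Deg.const [Fintype I] (r : ℝ) : Deg 0 (fun _ : I → Bool => r) :=
  ⟨fun _ _ => r, fun y => by simp⟩

theorem Deg.reindex {I' : Type} [Fintype I] [Fintype I'] [DecidableEq I'] {T : ℕ}
    {g : (I → Bool) → ℝ} (h : Deg T g) (e : I → I') :
    Deg T (fun y : I' → Bool => g (fun i => y (e i))) := by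
  obtain ⟨c, hc⟩ := h
  refine ⟨fun J' z => ∑ J : Fin T → I, if (fun a => e (J a)) = J' then c J z else 0, fun y => ?_⟩
  beta_reduce
  rw [hc, sum_comm]
  refine sum_congr rfl fun J _ => ?_
  rw [sum_ite_eq]
  simp

/-- an integer-valued sum of `D`-juntas congruent to `f` modulo `2 ^ (t + 1)` -/
def Alg [Fintype I] (t : ℕ) (f : (I → Bool) → Bool) (D : ℕ) : Prop :=
  ∃ g, Deg D g ∧ ∀ y, ∃ z : ℤ, g y = (if f y then 1 else 0) + 2 ^ (t + 1) * (z : ℝ)

section alg

variable [Fintype I] [DecidableEq I] [Inhabited I]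

theorem Alg.mono {t D D' : ℕ} {f : (I → Bool) → Bool} (h : Alg t f D) (hD : D ≤ D') :
    Alg t f D' := by
  obtain ⟨g, hg, h⟩ := h
  exact ⟨g, hg.mono hD, h⟩

theorem Alg.const (c : Bool) (D : ℕ) : Alg 0 (fun _ : I → Bool => c) D :=
  ⟨_, (Deg.const (if c then 1 else 0)).mono D.zero_le, fun _ => ⟨0, by simp⟩⟩

omit [Inhabited I] in
theorem Alg.leaf (i : I) : Alg 0 (fun y : I → Bool => y i) 1 :=
  ⟨_, (Deg.const 1).step i (fun b => if b then 1 else 0), fun _ => ⟨0, by simp⟩⟩

omit [DecidableEq I] [Inhabited I] in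
theorem Alg.reindex {I' : Type} [Fintype I'] [DecidableEq I'] {t D : ℕ} {f : (I → Bool) → Bool}
    (h : Alg t f D) (e : I → I') : Alg t (fun y : I' → Bool => f (fun i => y (e i))) D := by
  obtain ⟨g, hg, h⟩ := h
  exact ⟨_, hg.reindex e, fun y => h _⟩

omit [DecidableEq I] [Inhabited I] in
theorem Alg.sq {t D : ℕ} {f : (I → Bool) → Bool} (h : Alg t f D) : Alg (t + 1) f (D + D) := by
  obtain ⟨g, hg, h⟩ := h
  refine ⟨_, hg.mul hg, fun y => ?_⟩
  obtain ⟨z, hz⟩ := h y
  refine ⟨(if f y then 1 else 0) * z + 2 ^ t * z ^ 2, ?_⟩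
  rw [hz]
  cases f y <;> simp <;> ring

omit [DecidableEq I] [Inhabited I] in
theorem Alg.pow {D : ℕ} {f : (I → Bool) → Bool} (h : Alg 0 f D) (t : ℕ) : Alg t f (2 ^ t * D) := by
  induction t with
  | zero => simpa using h
  | succ t ih =>
    have := ih.sq
    rwa [show 2 ^ t * D + 2 ^ t * D = 2 ^ (t + 1) * D by ring] at this

theorem Alg.gate {D : ℕ} {f g : (I → Bool) → Bool} (hf : Alg 0 f D) (hg : Alg 0 g D)
    (op : Bool → Bool → Bool) : Alg 0 (fun y => op (f y) (g y)) (2 ^ (if isAnd op then 1 else 0) * D) := by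
  obtain ⟨p, hp, h1⟩ := hf
  obtain ⟨q, hq, h2⟩ := hg
  have hD : D ≤ 2 ^ (if isAnd op then 1 else 0) * D := Nat.le_mul_of_pos_left _ (by positivity)
  have h3 : Deg (2 ^ (if isAnd op then 1 else 0) * D)
      (fun y => (if isAnd op then 1 else 0) * (p y * q y)) := by
    cases isAnd op
    · simpa using (Deg.const (I := I) 0).mono D.zero_le
    · simpa [two_mul] using hp.mul hq
  have h4 := Deg.comb (univ : Finset (Fin 4))
    ![if op false false then 1 else 0, if xor (op false false) (op true false) then 1 else 0,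
      if xor (op false false) (op false true) then 1 else 0, 1]
    (g := ![fun _ => 1, p, q, fun y => (if isAnd op then 1 else 0) * (p y * q y)])
    (T := 2 ^ (if isAnd op then 1 else 0) * D) (by
      intro a _
      fin_cases a
      · exact (Deg.const 1).mono (Nat.zero_le _)
      · exact hp.mono hD
      · exact hq.mono hD
      · exact h3)
  refine ⟨_, h4, fun y => ?_⟩
  obtain ⟨z, hz⟩ := h1 y
  obtain ⟨z', hz'⟩ := h2 y
  have key : ∀ o1 o2 o3 o4 a b : Bool, ∃ e : Fin 3, ((if o1 then 1 else 0) +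
      (if xor o1 o3 then 1 else 0) * (if a then 1 else 0) +
      (if xor o1 o2 then 1 else 0) * (if b then 1 else 0) +
      (if xor (xor o1 o2) (xor o3 o4) then 1 else 0) * ((if a then 1 else 0) * (if b then 1 else 0)) : ℤ) =
      (if (if a then (if b then o4 else o3) else (if b then o2 else o1)) then 1 else 0) +
        2 * ((e : ℕ) : ℤ) := by decide
  obtain ⟨e, he⟩ := key (op false false) (op false true) (op true false) (op true true) (f y) (g y)
  have h5 : (if f y then (if g y then op true true else op true false)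
      else (if g y then op false true else op false false)) = op (f y) (g y) := by
    cases f y <;> cases g y <;> simp
  have h6 : xor (xor (op false false) (op false true)) (xor (op true false) (op true true)) =
    isAnd op := rfl
  rw [h5, h6] at he
  have he' := congrArg (Int.cast : ℤ → ℝ) he
  refine ⟨(e : ℕ) + (if xor (op false false) (op true false) then 1 else 0) * z +
    (if xor (op false false) (op false true) then 1 else 0) * z' +
    (if isAnd op then 1 else 0) * ((if f y then 1 else 0) * z' + (if g y then 1 else 0) * z +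
      2 * z * z'), ?_⟩
  simp only [Fin.sum_univ_four, Matrix.cons_val, hz, hz']
  push_cast at he' ⊢
  linear_combination he'

theorem approx2 {f : (I → Bool) → Bool} {a b e τ : ℕ} (h1 : A f (2 ^ a)) (h2 : Alg 0 f (2 ^ b))
    (he : b ≤ e ∨ a ≤ 2 * e + 1) :
    ∃ c : (Fin (2 ^ (2 * τ + 7 + e)) → I) → (Fin (2 ^ (2 * τ + 7 + e)) → Bool) → ℝ, ∀ y, ∃ z : ℤ,
      |∑ J, c J (fun b => y (J b)) - (if f y then 1 else 0) - 2 ^ τ * z| ≤ 1 / 2 ^ (τ + 3) := by
  rcases he with he | he
  · obtain ⟨g, ⟨c, hc⟩, hg⟩ := (h2.pow τ).mono (D' := 2 ^ (2 * τ + 7 + e))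
      (by rw [← pow_add]; exact Nat.pow_le_pow_right (by norm_num) (by omega))
    refine ⟨c, fun y => ?_⟩
    obtain ⟨z, hz⟩ := hg y
    refine ⟨2 * z, ?_⟩
    rw [← hc, hz]
    push_cast
    rw [show (if f y then 1 else 0 : ℝ) + 2 ^ (τ + 1) * z - (if f y then 1 else 0) - 2 ^ τ * (2 * z) = 0
      by ring]
    simp
  · obtain ⟨g, hg, h⟩ := h1.approx (τ := τ)
    obtain ⟨c, hc⟩ := hg.mono (T := 2 ^ (2 * τ + 7 + e))
      (Nat.pow_le_pow_right (by norm_num) (by omega))
    exact ⟨c, fun y => ⟨0, by rw [← hc]; simpa using h y⟩⟩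

end alg

end Pool.Agent.MP0f3202
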