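import Mathlib

/-! Layered circuits and protocols in the correlated randomness model. -/

namespace Pool.Agent.MP0f3202

open Finset

/-- the two-argument operation is XOR or XNOR -/
def isX (op : Bool → Bool → Bool) : Bool :=
  op false false == op true true && op false true == op true false && op false false != op false true

/-- the two-argument operation is of AND type: its truth table has an odd number of ones -/
def isAnd (op : Bool → Bool → Bool) : Bool :=
  xor (xor (op false false) (op false true)) (xor (op true false) (op true true))

/-- the label of a node: an input bit, a constant, or a gate with two (maybe equal) predecessors -/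
inductive Lab (n s : ℕ) : Type
  | inp (i : Fin n)
  | const (c : Bool)
  | gate (op : Bool → Bool → Bool) (a b : Fin s)

/-- layered circuit: `n` inputs, `m` outputs, `s` nodes, layers `0, …, d - 1` -/
structure Circ (n m s d : ℕ) where
  lab : Fin s → Lab n s
  lev : Fin s → ℕ
  out : Fin m → Fin s
  lev_lt : ∀ v, lev v < d
  wire : ∀ v op a b, lab v = Lab.gate op a b → lev a + 1 = lev v ∧ lev b + 1 = lev v

variable {N n m s d S : ℕ}

/-- evaluation by recursion on a step counter -/
def Circ.ev (C : Circ n m s d) (x : Fin n → Bool) : ℕ → Fin s → Bool
  | 0, _ => false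
  | j + 1, v =>
    match C.lab v with
    | Lab.inp i => x i
    | Lab.const c => c
    | Lab.gate op a b => op (C.ev x j a) (C.ev x j b)

/-- the value of node `v` on input `x` -/
def Circ.val (C : Circ n m s d) (x : Fin n → Bool) (v : Fin s) : Bool := C.ev x (C.lev v + 1) v

/-- the function computed by the circuit -/
def Circ.fn (C : Circ n m s d) (x : Fin n → Bool) (j : Fin m) : Bool := C.val x (C.out j)

/-- the largest number of XOR and XNOR gates on a path of at most `j` gates going down from `v` -/
def Circ.xc (C : Circ n m s d) : ℕ → Fin s → ℕ
  | 0, _ => 0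
  | j + 1, v =>
    match C.lab v with
    | Lab.gate op a b => (if isX op then 1 else 0) + max (C.xc j a) (C.xc j b)
    | _ => 0

/-- the largest number of AND-type gates on a path of at most `j` gates going down from `v` -/
def Circ.ac (C : Circ n m s d) : ℕ → Fin s → ℕ
  | 0, _ => 0
  | j + 1, v =>
    match C.lab v with
    | Lab.gate op a b => (if isAnd op then 1 else 0) + max (C.ac j a) (C.ac j b)
    | _ => 0

/-- the part of the input that party `p` holds -/
def loc (owner : Fin n → Fin N) (p : Fin N) (x : Fin n → Bool) : Fin n → Bool :=
  fun i => if owner i = p then x i else false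

/-- A protocol for `N` parties over a broadcast channel. The dealer draws `ω` uniformly from a finite
set and gives party `p` the `S` bits `R p ω`. In round `t` party `spk t` broadcasts `len t` bits,
a function of its input, its stored bits and the earlier messages. -/
structure Prot (N n m S : ℕ) where
  Ω : Type
  finite : Finite Ω
  nonempty : Nonempty Ω
  R : Fin N → Ω → Fin S → Bool
  rounds : ℕ
  spk : ℕ → Fin N
  len : ℕ → ℕ
  msg : ℕ → (Fin n → Bool) → (Fin S → Bool) → (ℕ → ℕ) → ℕ
  msg_lt : ∀ t x r h, msg t x r h < 2 ^ len t
  out : Fin N → (Fin n → Bool) → (Fin S → Bool) → (ℕ → ℕ) → Fin m → Bool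

/-- the messages of the first `t` rounds (entry `j` is the message of round `j`) -/
def Prot.tr (P : Prot N n m S) (owner : Fin n → Fin N) (x : Fin n → Bool) (ω : P.Ω) : ℕ → ℕ → ℕ
  | 0 => fun _ => 0
  | t + 1 => Function.update (P.tr owner x ω t) t
      (P.msg t (loc owner (P.spk t) x) (P.R (P.spk t) ω) (P.tr owner x ω t))

/-- the number of bits sent -/
def Prot.comm (P : Prot N n m S) : ℕ := ∑ t ∈ range P.rounds, P.len t

/-- the number of dealer coins giving the parties in `A` the stored bits `ρ` and the transcript `h` -/
noncomputable def Prot.views (P : Prot N n m S) (owner : Fin n → Fin N) (A : Finset (Fin N))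
    (x : Fin n → Bool) (ρ : Fin N → Fin S → Bool) (h : ℕ → ℕ) : ℕ :=
  Nat.card {ω : P.Ω // (∀ p ∈ A, P.R p ω = ρ p) ∧ P.tr owner x ω P.rounds = h}

/-- perfect correctness, and perfect privacy against every proper subset of semi-honest parties -/
def Prot.Secure (P : Prot N n m S) (owner : Fin n → Fin N)
    (F : (Fin n → Bool) → Fin m → Bool) : Prop :=
  (∀ x ω p, P.out p (loc owner p x) (P.R p ω) (P.tr owner x ω P.rounds) = F x) ∧
  ∀ A : Finset (Fin N), A ≠ univ → ∀ x x', (∀ i, owner i ∈ A → x i = x' i) → F x = F x' →
    ∀ ρ h, P.views owner A x ρ h = P.views owner A x' ρ h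

end Pool.Agent.MP0f3202
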