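import Pool.Agent.MP_0f3202_lc.Defs

/-! The protocol for an abstract list of packed gates with approximating tables. -/

namespace Pool.Agent.MP0f3202

open Finset

/-- the number with binary digits `y` -/
def enc {τ : ℕ} (y : Fin τ → Bool) : ℕ := ∑ μ : Fin τ, (y μ).toNat * 2 ^ (μ : ℕ)

/-- a binary digit -/
def bit (D μ : ℕ) : Bool := decide (D / 2 ^ μ % 2 = 1)

theorem enc_spec {τ : ℕ} (y : Fin τ → Bool) : enc y < 2 ^ τ ∧ ∀ μ : Fin τ, bit (enc y) μ = y μ := by
  let f : Fin τ → Fin 2 := fun μ => ⟨(y μ).toNat, by cases y μ <;> simp⟩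
  have e : enc y = (finFunctionFinEquiv f : ℕ) := rfl
  refine ⟨e ▸ (finFunctionFinEquiv f).2, fun μ => ?_⟩
  have h := finFunctionFinEquiv_symm_apply_val (finFunctionFinEquiv f) μ
  rw [Equiv.symm_apply_apply] at h
  rw [bit, e, ← h]
  cases hy : y μ <;> simp [f, hy]

/-- decoding of a masked pack -/
def Dec {M q : ℕ} (B hf : ℕ) (z : ZMod q) (ρ : ZMod M) : ℕ :=
  (((z.val * B : ℕ) : ZMod M) - ρ + (hf : ℕ)).val / (2 * hf)

theorem arith {N M q B hf τ : ℕ} [NeZero M] [NeZero q] (hM : M = q * B) (hu : M = 2 ^ τ * (2 * hf))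
    (hN : 2 * N * B ≤ hf) (s : Fin N → ZMod M) (ρ : ZMod M) (V : ℤ) (Y : ℕ) (hY : Y < 2 ^ τ)
    (hs : ∑ p, s p = ρ + V) (lo : 2 * (2 * hf * Y : ℤ) - hf ≤ 2 * V) (hi : V < 2 * hf * Y + hf) :
    Dec B hf (∑ p, (((s p).val / B : ℕ) : ZMod q)) ρ = Y := by
  have hM0 : 0 < M := Nat.pos_of_ne_zero (NeZero.ne M)
  have hB : 0 < B := Nat.pos_of_ne_zero fun h => by simp [h] at hM; omega
  have hh : 0 < hf := Nat.pos_of_ne_zero fun h => by simp [h] at hu; omega
  obtain ⟨a, ha⟩ : ∃ a, a = ∑ p, (s p).val / B := ⟨_, rfl⟩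
  obtain ⟨δ, hδ⟩ : ∃ δ, δ = ∑ p, (s p).val % B := ⟨_, rfl⟩
  have h1 : a * B + δ = ∑ p, (s p).val := by
    rw [ha, hδ, sum_mul, ← sum_add_distrib]
    exact sum_congr rfl fun p _ => Nat.div_add_mod' _ _
  have h2 : δ ≤ N * B := by
    rw [hδ]
    calc _ ≤ ∑ _p : Fin N, B := sum_le_sum fun p _ => (Nat.mod_lt _ hB).le
      _ = N * B := by simp
  have h3 : ((((a : ZMod q).val * B : ℕ)) : ZMod M) = ((a * B : ℕ) : ZMod M) := by
    rw [ZMod.natCast_eq_natCast_iff, ZMod.val_natCast, hM]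
    exact (Nat.mod_modEq a q).mul_right' B
  have h4 : ((a * B : ℕ) : ZMod M) = ρ + V - δ := by
    rw [← hs, eq_sub_iff_add_eq, ← Nat.cast_add, h1]
    simp
  have h5 : ((a * B : ℕ) : ZMod M) - ρ + (hf : ℕ) = ((V - δ + hf : ℤ) : ZMod M) := by
    rw [h4]; push_cast; ring
  have h6 : (2 * δ : ℤ) ≤ hf := by
    have : 2 * δ ≤ hf := by nlinarith
    exact_mod_cast this
  have h7 : (2 * hf * Y + 2 * hf : ℤ) ≤ M := by
    have : 2 * hf * Y + 2 * hf ≤ M := by rw [hu]; nlinarith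
    exact_mod_cast this
  have h0 : (0 : ℤ) ≤ 2 * hf * Y := by positivity
  have hδ0 : (0 : ℤ) ≤ δ := by positivity
  have h8 : (((V - δ + hf : ℤ) : ZMod M).val : ℤ) = V - δ + hf := by
    rw [ZMod.val_intCast]
    exact Int.emod_eq_of_lt (by linarith) (by linarith)
  rw [Dec, ← Nat.cast_sum, ← ha, h3, h5]
  generalize ((V - δ + hf : ℤ) : ZMod M).val = w at h8
  refine Nat.div_eq_of_lt_le ?_ ?_
  · have : (Y * (2 * hf) : ℤ) ≤ w := by linarith
    exact_mod_cast this
  · have : (w : ℤ) < (Y + 1) * (2 * hf) := by linarith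
    exact_mod_cast this

/-- sources of a table: nothing, an input bit, or a member of an earlier pack -/
abbrev Src (n τ : ℕ) (Γ : Type) := Option (Fin n ⊕ Γ × Fin τ)

/-- table entries -/
abbrev Ent (τ T q : ℕ) (I Γ : Type) := Γ × Option (Fin τ × (Fin T → I) × (Fin T → ZMod q))

/-- true value of a source -/
def sv {n τ : ℕ} {Γ : Type} (Y : (Fin n → Bool) → Γ → Fin τ → Bool) (x : Fin n → Bool) :
    Src n τ Γ → Bool
  | none => false
  | some (Sum.inl i) => x i
  | some (Sum.inr a) => Y x a.1 a.2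

/-- the data of the protocol -/
structure Mach (N n m τ T G M q S : ℕ) (I Γ : Type) [Fintype I] where
  B : ℕ
  hf : ℕ
  lq : ℕ
  owner : Fin n → Fin N
  p0 : Fin N
  pos : Γ ≃ Fin G
  src : Γ → Fin τ → I → Src n τ Γ
  cf : Γ → Fin τ → (Fin T → I) → (Fin T → Bool) → ℝ
  Y : (Fin n → Bool) → Γ → Fin τ → Bool
  masked : Γ → Bool
  F : (Fin n → Bool) → Fin m → Bool
  og : Fin m → Γ × Fin τ
  en : (Fin n → Bool) × (Ent τ T q I Γ → ZMod M) → Fin S → Bool
  de : (Fin S → Bool) → (Fin n → Bool) × (Ent τ T q I Γ → ZMod M)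
  hde : ∀ a, de (en a) = a
  hq : q = 2 ^ lq
  hq1 : 1 < q
  hM : M = q * B
  hu : M = 2 ^ τ * (2 * hf)
  hN : 2 * N * B ≤ hf
  hJ : 4 * (τ * Fintype.card (Fin T → I)) ≤ hf
  hord : ∀ g μ i g' μ', src g μ i = some (Sum.inr (g', μ')) → pos g' < pos g
  happ : ∀ x g μ, ∃ z : ℤ, |∑ J, cf g μ J (fun a => sv Y x (src g μ (J a))) -
    (if Y x g μ then 1 else 0) - 2 ^ τ * z| ≤ 1 / 2 ^ (τ + 3)
  hun : ∀ g, masked g = false → ∀ x x', F x = F x' → ∀ μ i,
    sv Y x (src g μ i) = sv Y x' (src g μ i)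
  hout : ∀ j, masked (og j).1 = false ∧ ∀ x, F x j = Y x (og j).1 (og j).2

section generic

variable {N n m S : ℕ} (P : Prot N n m S) (owner : Fin n → Fin N) (x : Fin n → Bool) (ω : P.Ω)

/-- the message of round `t` -/
def Prot.say (t : ℕ) : ℕ :=
  P.msg t (loc owner (P.spk t) x) (P.R (P.spk t) ω) (P.tr owner x ω t)

theorem Prot.tr_lt {j t : ℕ} (h : j < t) : P.tr owner x ω t j = P.say owner x ω j := by
  induction t with
  | zero => omega
  | succ t ih =>
    rw [Prot.tr]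
    by_cases hj : j = t
    · subst hj; simp [Prot.say]
    · rw [Function.update_of_ne hj]; exact ih (by omega)

end generic

namespace Mach

variable {N n m τ T G M q S : ℕ} {I Γ : Type} [Fintype I] (X : Mach N n m τ T G M q S I Γ)

/-- the dealer's coins -/
abbrev Om (_X : Mach N n m τ T G M q S I Γ) : Type :=
  (Fin n → Bool) × (Γ → ZMod M) × (Fin N → Ent τ T q I Γ → ZMod M)

/-- the mask of a pack -/
def rho (ρ : Γ → ZMod M) (g : Γ) : ZMod M := if X.masked g then ρ g else 0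

/-- the public value of a source -/
def pub (h : ℕ → ℕ) : Src n τ Γ → ZMod q
  | none => 0
  | some (Sum.inl i) => (h i : ℕ)
  | some (Sum.inr a) => ∑ p : Fin N, ((h (n + X.pos a.1 * N + p) : ℕ) : ZMod q)

/-- the dealer's decoding of a public value -/
def dec (r : Fin n → Bool) (ρ : Γ → ZMod M) : Src n τ Γ → ZMod q → Bool
  | none, _ => false
  | some (Sum.inl i), z => xor (decide (z.val = 1)) (r i)
  | some (Sum.inr a), z => bit (Dec X.B X.hf z (X.rho ρ a.1)) a.2

/-- the table -/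
noncomputable def tot (r : Fin n → Bool) (ρ : Γ → ZMod M) : Ent τ T q I Γ → ZMod M
  | (g, none) => X.rho ρ g
  | (g, some (μ, J, z)) => ((⌊(2 : ℝ) ^ (μ : ℕ) * (2 * X.hf) *
      X.cf g μ J (fun a => X.dec r ρ (X.src g μ (J a)) (z a))⌋ : ℤ) : ZMod M)

/-- additive shares of the table -/
noncomputable def share (ω : X.Om) (p : Fin N) (e : Ent τ T q I Γ) : ZMod M :=
  ω.2.2 p e + if p = X.p0 then X.tot ω.1 ω.2.1 e - ∑ p', ω.2.2 p' e else 0

/-- the sum of the selected entries -/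
def sel (sh : Ent τ T q I Γ → ZMod M) (h : ℕ → ℕ) (g : Γ) : ZMod M :=
  sh (g, none) + ∑ μ, ∑ J : Fin T → I, sh (g, some (μ, J, fun a => X.pub h (X.src g μ (J a))))

/-- the noisy value of a pack -/
noncomputable def V (x : Fin n → Bool) (g : Γ) : ℤ :=
  ∑ μ : Fin τ, ∑ J : Fin T → I, ⌊(2 : ℝ) ^ (μ : ℕ) * (2 * X.hf) *
    X.cf g μ J (fun a => sv X.Y x (X.src g μ (J a)))⌋

/-- the messages -/
def msg (t : ℕ) (x : Fin n → Bool) (b : Fin S → Bool) (h : ℕ → ℕ) : ℕ :=
  if ht : t < n then (xor (x ⟨t, ht⟩) ((X.de b).1 ⟨t, ht⟩)).toNat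
  else if hg : (t - n) / N < G then (X.sel (X.de b).2 h (X.pos.symm ⟨_, hg⟩)).val / X.B else 0

include X in
theorem Npos : 0 < N := X.p0.pos

theorem sum_share (ω : X.Om) (e : Ent τ T q I Γ) : ∑ p, X.share ω p e = X.tot ω.1 ω.2.1 e := by
  simp [share, sum_add_distrib]

theorem sel_sum (sh : Fin N → Ent τ T q I Γ → ZMod M) (h : ℕ → ℕ) (g : Γ) :
    ∑ p, X.sel (sh p) h g = X.sel (fun e => ∑ p, sh p e) h g := by
  simp only [sel, sum_add_distrib]
  congr 1
  rw [sum_comm]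
  exact sum_congr rfl fun μ _ => sum_comm

theorem sel_add (a b c : Ent τ T q I Γ → ZMod M) (h : ℕ → ℕ) (g : Γ) :
    X.sel (fun e => a e + (b e - c e)) h g = X.sel a h g + (X.sel b h g - X.sel c h g) := by
  simp only [sel, sum_add_distrib, sum_sub_distrib]
  ring

theorem V_bound (hh : 0 < X.hf) (x : Fin n → Bool) (g : Γ) : ∃ W : ℤ, (W : ZMod M) = X.V x g ∧
    2 * (2 * X.hf * enc (X.Y x g) : ℤ) - X.hf ≤ 2 * W ∧ W < 2 * X.hf * enc (X.Y x g) + X.hf := by
  have hh' : (0 : ℝ) < X.hf := by exact_mod_cast hh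
  obtain ⟨c, hc⟩ : ∃ c : Fin τ → (Fin T → I) → ℝ,
    ∀ μ J, c μ J = X.cf g μ J (fun a => sv X.Y x (X.src g μ (J a))) := ⟨_, fun _ _ => rfl⟩
  choose z hz using X.happ x g
  have hA : ∀ μ, |∑ J, c μ J - (((X.Y x g μ).toNat : ℝ) + 2 ^ τ * z μ)| ≤ 1 / 2 ^ (τ + 3) := by
    intro μ
    have := hz μ
    rw [sub_sub] at this
    simp only [← hc] at this
    cases hy : X.Y x g μ <;> simpa [hy] using this
  have h1 : (X.V x g : ℝ) ≤ ∑ μ : Fin τ, (2 : ℝ) ^ (μ : ℕ) * (2 * X.hf) * ∑ J, c μ J := by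
    simp only [V, ← hc, Int.cast_sum, mul_sum]
    exact sum_le_sum fun μ _ => sum_le_sum fun J _ => Int.floor_le _
  have h2 : ∑ μ : Fin τ, (2 : ℝ) ^ (μ : ℕ) * (2 * X.hf) * ∑ J, c μ J -
      τ * Fintype.card (Fin T → I) ≤ X.V x g := by
    simp only [V, ← hc, Int.cast_sum, mul_sum]
    have : (τ * Fintype.card (Fin T → I) : ℝ) = ∑ _μ : Fin τ, ∑ _J : Fin T → I, (1 : ℝ) := by
      simp only [sum_const, card_univ, Fintype.card_fin, nsmul_eq_mul, mul_one]
    rw [this, ← sum_sub_distrib]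
    refine sum_le_sum fun μ _ => ?_
    rw [← sum_sub_distrib]
    exact sum_le_sum fun J _ => (Int.sub_one_lt_floor _).le
  obtain ⟨Z, hZ⟩ : ∃ Z : ℤ, Z = ∑ μ : Fin τ, 2 ^ (μ : ℕ) * z μ := ⟨_, rfl⟩
  have h3 : |∑ μ : Fin τ, (2 : ℝ) ^ (μ : ℕ) * (2 * X.hf) * ∑ J, c μ J -
      (2 * X.hf * enc (X.Y x g) + 2 ^ τ * (2 * X.hf) * Z)| ≤ X.hf / 4 := by
    have e1 : (2 * X.hf * enc (X.Y x g) + 2 ^ τ * (2 * X.hf) * Z : ℝ) =
        ∑ μ : Fin τ, (2 : ℝ) ^ (μ : ℕ) * (2 * X.hf) * (((X.Y x g μ).toNat : ℝ) + 2 ^ τ * z μ) := by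
      simp only [enc, hZ, Nat.cast_sum, Int.cast_sum, mul_sum, ← sum_add_distrib]
      refine sum_congr rfl fun μ _ => ?_
      push_cast; ring
    have e2 : ∑ μ : Fin τ, (2 : ℝ) ^ (μ : ℕ) ≤ 2 ^ τ := by
      have := (enc_spec (fun _ : Fin τ => true)).1.le
      simp only [enc, Bool.toNat_true, one_mul] at this
      exact_mod_cast this
    rw [e1, ← sum_sub_distrib]
    refine (abs_sum_le_sum_abs _ _).trans ?_
    calc _ ≤ ∑ μ : Fin τ, (2 : ℝ) ^ (μ : ℕ) * ((2 * X.hf) * (1 / 2 ^ (τ + 3))) := by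
          refine sum_le_sum fun μ _ => ?_
          rw [← mul_sub, abs_mul, abs_of_pos (by positivity), mul_assoc]
          gcongr
          exact hA μ
      _ ≤ 2 ^ τ * ((2 * X.hf) * (1 / 2 ^ (τ + 3))) := by
          rw [← sum_mul]; gcongr
      _ = X.hf / 4 := by rw [pow_add]; field_simp; norm_num
  have h4 : (4 * (τ * Fintype.card (Fin T → I)) : ℝ) ≤ X.hf := by exact_mod_cast X.hJ
  rw [abs_le] at h3
  refine ⟨X.V x g - 2 ^ τ * (2 * X.hf) * Z, ?_, ?_, ?_⟩
  · have : ((2 ^ τ * (2 * X.hf) : ℕ) : ZMod M) = 0 := by rw [← X.hu]; exact ZMod.natCast_self M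
    push_cast at this ⊢
    rw [this]; ring
  · have : 2 * (2 * X.hf * enc (X.Y x g) : ℝ) - X.hf ≤ 2 * (X.V x g - 2 ^ τ * (2 * X.hf) * Z) := by
      linarith [h3.1]
    exact_mod_cast this
  · have : (X.V x g - 2 ^ τ * (2 * X.hf) * Z : ℝ) < 2 * X.hf * enc (X.Y x g) + X.hf := by
      linarith [h3.2]
    exact_mod_cast this

variable [NeZero M] [NeZero q] [Fintype Γ]

/-- the protocol -/
noncomputable def prot : Prot N n m S where
  Ω := X.Om
  finite := inferInstance
  nonempty := inferInstance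
  R p ω := X.en (loc X.owner p ω.1, X.share ω p)
  rounds := n + G * N
  spk t := if ht : t < n then X.owner ⟨t, ht⟩ else ⟨(t - n) % N, Nat.mod_lt _ X.Npos⟩
  len t := if t < n then 1 else X.lq
  msg := X.msg
  msg_lt t x b h := by
    unfold msg
    split_ifs
    · exact Bool.toNat_lt _
    · rw [← X.hq]
      refine Nat.div_lt_of_lt_mul ?_
      rw [mul_comm, ← X.hM]
      exact ZMod.val_lt _
    · positivity
  out _ _ _ h j := bit (Dec X.B X.hf (X.pub h (some (Sum.inr (X.og j)))) (0 : ZMod M)) (X.og j).2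

theorem comm_eq : X.prot.comm = n + N * X.lq * G := by
  simp only [Prot.comm, prot]
  rw [sum_range_add]
  congr 1
  · rw [sum_congr rfl (g := fun _ => 1) fun t ht => by simp [mem_range.1 ht]]
    simp
  · simp; ring

omit [NeZero M] [NeZero q] [Fintype Γ] in
theorem idx_lt (g : Γ) (p : Fin N) : n + X.pos g * N + p < n + (X.pos g + 1) * N := by
  have := p.2
  rw [add_mul]; omega

theorem pub_tr (x : Fin n → Bool) (ω : X.Om) {t k : ℕ} (ht : n + k * N ≤ t) (s : Src n τ Γ)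
    (hs : ∀ a, s = some (Sum.inr a) → (X.pos a.1 : ℕ) < k) :
    X.pub (X.prot.tr X.owner x ω t) s = X.pub (X.prot.say X.owner x ω) s := by
  match s, hs with
  | none, _ => rfl
  | some (Sum.inl i), _ =>
    have := i.2
    simp only [pub]
    rw [Prot.tr_lt _ _ _ _ (by omega)]
  | some (Sum.inr a), hs =>
    simp only [pub]
    refine sum_congr rfl fun p _ => ?_
    have h1 := X.idx_lt a.1 p
    have h2 : (X.pos a.1 + 1) * N ≤ k * N := Nat.mul_le_mul_right _ (hs a rfl)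
    rw [Prot.tr_lt _ _ _ _ (by omega)]

theorem sel_tr (x : Fin n → Bool) (ω : X.Om) (sh : Ent τ T q I Γ → ZMod M) (g : Γ) {t : ℕ}
    (ht : n + X.pos g * N ≤ t) :
    X.sel sh (X.prot.tr X.owner x ω t) g = X.sel sh (X.prot.say X.owner x ω) g := by
  simp only [sel]
  congr 1
  refine sum_congr rfl fun μ _ => sum_congr rfl fun J _ => ?_
  congr 5
  funext a
  exact X.pub_tr x ω ht _ fun b hb => X.hord g μ _ b.1 b.2 hb

theorem say_in (x : Fin n → Bool) (ω : X.Om) (i : Fin n) :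
    X.prot.say X.owner x ω i = (xor (x i) (ω.1 i)).toNat := by
  simp [Prot.say, prot, msg, X.hde, loc]

theorem say_gate (x : Fin n → Bool) (ω : X.Om) (g : Γ) (p : Fin N) :
    X.prot.say X.owner x ω (n + X.pos g * N + p) =
      (X.sel (X.share ω p) (X.prot.say X.owner x ω) g).val / X.B := by
  have h0 : ¬ n + X.pos g * N + p < n := by omega
  have h1 : n + X.pos g * N + p - n = p + N * X.pos g := by rw [mul_comm]; omega
  have h2 : (n + X.pos g * N + p - n) / N = X.pos g := by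
    rw [h1, Nat.add_mul_div_left _ _ X.Npos, Nat.div_eq_of_lt p.2, zero_add]
  have h3 : (n + X.pos g * N + p - n) % N = p := by
    rw [h1, Nat.add_mul_mod_self_left, Nat.mod_eq_of_lt p.2]
  have h4 : X.prot.spk (n + X.pos g * N + p) = p := by
    simp only [prot, h0, dif_neg, not_false_eq_true]
    exact Fin.ext h3
  rw [← X.sel_tr x ω _ g (t := n + X.pos g * N + p) (by omega)]
  rw [Prot.say, h4]
  change X.msg _ _ (X.en _) _ = _
  simp only [msg, h0, dif_neg, not_false_eq_true, h2, X.hde, (X.pos g).2, dif_pos, Fin.eta,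
    Equiv.symm_apply_apply]

theorem dec_gate (x : Fin n → Bool) (ω : X.Om) (g : Γ)
    (h : X.sel (X.tot ω.1 ω.2.1) (X.prot.say X.owner x ω) g = X.rho ω.2.1 g + X.V x g) (μ : Fin τ) :
    bit (Dec X.B X.hf (X.pub (X.prot.say X.owner x ω) (some (Sum.inr (g, μ)))) (X.rho ω.2.1 g)) μ =
      X.Y x g μ := by
  have hh : 0 < X.hf := Nat.pos_of_ne_zero fun h => NeZero.ne M (by rw [X.hu, h]; simp)
  simp only [pub, X.say_gate]
  obtain ⟨W, hW, lo, hi⟩ := X.V_bound hh x g
  rw [arith X.hM X.hu X.hN _ _ W _ (enc_spec (X.Y x g)).1 ?_ lo hi]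
  · exact (enc_spec _).2 μ
  · rw [X.sel_sum, hW, ← h]
    simp only [X.sum_share]

theorem sel_tot (x : Fin n → Bool) (ω : X.Om) (g : Γ) :
    X.sel (X.tot ω.1 ω.2.1) (X.prot.say X.owner x ω) g = X.rho ω.2.1 g + X.V x g := by
  obtain ⟨k, hk⟩ : ∃ k, (X.pos g : ℕ) = k := ⟨_, rfl⟩
  induction k using Nat.strong_induction_on generalizing g with
  | _ k ih =>
    have key : ∀ μ i, X.dec ω.1 ω.2.1 (X.src g μ i)
        (X.pub (X.prot.say X.owner x ω) (X.src g μ i)) = sv X.Y x (X.src g μ i) := by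
      intro μ i
      have ho := X.hord g μ i
      generalize X.src g μ i = s at ho
      match s, ho with
      | none, _ => rfl
      | some (Sum.inl j), _ =>
        simp only [dec, pub, sv, X.say_in]
        rw [ZMod.val_cast_of_lt ((Bool.toNat_lt _).trans_le X.hq1)]
        cases x j <;> cases ω.1 j <;> simp
      | some (Sum.inr a), ho =>
        exact X.dec_gate x ω a.1 (ih _ (hk ▸ ho a.1 a.2 rfl) a.1 rfl) a.2
    simp only [sel, tot, key, V, Int.cast_sum]

theorem correct (x : Fin n → Bool) (ω : X.Om) (p : Fin N) :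
    X.prot.out p (loc X.owner p x) (X.prot.R p ω) (X.prot.tr X.owner x ω X.prot.rounds) = X.F x := by
  funext j
  change bit (Dec X.B X.hf (X.pub (X.prot.tr X.owner x ω (n + G * N)) _) _) _ = _
  rw [X.pub_tr x ω le_rfl _ fun a _ => (X.pos a.1).2, (X.hout j).2]
  have := X.dec_gate x ω (X.og j).1 (X.sel_tot x ω _) (X.og j).2
  rwa [rho, (X.hout j).1] at this

/-- the change of the dealer's coins -/
noncomputable def Phi (h : Fin N) (x x' : Fin n → Bool) (ω : X.Om) : X.Om :=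
  (fun i => xor (ω.1 i) (xor (x i) (x' i)), fun g => ω.2.1 g + (X.V x g - X.V x' g),
    fun p e => ω.2.2 p e + if p = h then
      X.tot (fun i => xor (ω.1 i) (xor (x i) (x' i))) (fun g => ω.2.1 g + (X.V x g - X.V x' g)) e -
        X.tot ω.1 ω.2.1 e else 0)

omit [NeZero M] [NeZero q] [Fintype Γ] in
theorem Phi_inj (h : Fin N) (x x' : Fin n → Bool) : Function.Injective (X.Phi h x x') := by
  rintro ⟨r, ρ, σ⟩ ⟨r', ρ', σ'⟩ e
  simp only [Phi, Prod.mk.injEq] at e
  obtain ⟨e1, e2, e3⟩ := e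
  have a1 : r = r' := funext fun i => by simpa using congrFun e1 i
  have a2 : ρ = ρ' := funext fun g => by simpa using congrFun e2 g
  subst a1 a2
  have a3 : σ = σ' := funext fun p => funext fun e => by simpa using congrFun (congrFun e3 p) e
  rw [a3]

omit [NeZero M] [NeZero q] [Fintype Γ] in
theorem share_Phi (h : Fin N) (x x' : Fin n → Bool) (ω : X.Om) (p : Fin N) :
    X.share (X.Phi h x x' ω) p = fun e => X.share ω p e + if p = h then
      X.tot (X.Phi h x x' ω).1 (X.Phi h x x' ω).2.1 e - X.tot ω.1 ω.2.1 e else 0 := by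
  funext e
  simp only [share, Phi, sum_add_distrib, sum_ite_eq', mem_univ, if_true]
  split_ifs <;> ring

theorem tr_Phi (h : Fin N) {x x' : Fin n → Bool} (hF : X.F x = X.F x') (ω : X.Om) (t : ℕ) :
    X.prot.tr X.owner x' (X.Phi h x x' ω) t = X.prot.tr X.owner x ω t := by
  induction t with
  | zero => rfl
  | succ t ih =>
    have key : X.prot.say X.owner x' (X.Phi h x x' ω) t = X.prot.say X.owner x ω t := by
      by_cases ht : t < n
      · have h1 := X.say_in x' (X.Phi h x x' ω) ⟨t, ht⟩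
        have h2 := X.say_in x ω ⟨t, ht⟩
        simp only at h1 h2
        rw [h1, h2]
        simp only [Phi]
        cases x ⟨t, ht⟩ <;> cases x' ⟨t, ht⟩ <;> cases ω.1 ⟨t, ht⟩ <;> rfl
      · simp only [Prot.say, ih]
        change X.msg _ _ (X.en _) _ = X.msg _ _ (X.en _) _
        simp only [msg, ht, dif_neg, not_false_eq_true, X.hde]
        split_ifs with hg
        · obtain ⟨g, hg'⟩ : ∃ g, g = X.pos.symm ⟨_, hg⟩ := ⟨_, rfl⟩
          have hp : n + X.pos g * N ≤ t := by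
            have := Nat.div_mul_le_self (t - n) N
            simp only [hg', Equiv.apply_symm_apply]
            omega
          rw [← hg', X.share_Phi]
          congr 2
          by_cases hph : X.prot.spk t = h
          · simp only [hph, if_true]
            rw [X.sel_add, X.sel_tr x ω (X.tot ω.1 ω.2.1) g hp, X.sel_tot]
            have := X.sel_tr x' (X.Phi h x x' ω) (X.tot (X.Phi h x x' ω).1 (X.Phi h x x' ω).2.1) g hp
            rw [ih, X.sel_tot] at this
            rw [this]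
            cases hm : X.masked g
            · have : X.V x g = X.V x' g := by simp only [V, X.hun g hm x x' hF]
              simp [rho, hm, this]
            · simp only [rho, hm, Phi, if_true]; ring
          · simp [hph]
        · rfl
    change Function.update (X.prot.tr X.owner x' (X.Phi h x x' ω) t) t
        (X.prot.say X.owner x' (X.Phi h x x' ω) t) =
      Function.update (X.prot.tr X.owner x ω t) t (X.prot.say X.owner x ω t)
    rw [key, ih]

theorem views_le (A : Finset (Fin N)) (hA : A ≠ univ) {x x' : Fin n → Bool}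
    (hx : ∀ i, X.owner i ∈ A → x i = x' i) (hF : X.F x = X.F x') (ρ : Fin N → Fin S → Bool)
    (H : ℕ → ℕ) : X.prot.views X.owner A x ρ H ≤ X.prot.views X.owner A x' ρ H := by
  obtain ⟨h, hh⟩ : ∃ h, h ∉ A := by
    by_contra hc
    exact hA (eq_univ_of_forall (by simpa using hc))
  have := X.prot.finite
  refine Nat.card_le_card_of_injective (fun ω => ⟨X.Phi h x x' ω.1, fun p hp => ?_, ?_⟩)
    fun a b e => Subtype.ext (X.Phi_inj h x x' (congrArg Subtype.val e))
  · rw [← ω.2.1 p hp]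
    have hph : p ≠ h := fun e => hh (e ▸ hp)
    change X.en _ = X.en _
    rw [X.share_Phi]
    congr 2
    · funext i
      simp only [loc, Phi]
      split_ifs with hi
      · rw [hx i (hi ▸ hp)]; simp
      · rfl
    · simp [hph]
  · rw [X.tr_Phi h hF]; exact ω.2.2

theorem secure : X.prot.Secure X.owner X.F :=
  ⟨X.correct, fun A hA _ _ hx hF ρ H => le_antisymm (X.views_le A hA hx hF ρ H)
    (X.views_le A hA (fun i hi => (hx i hi).symm) hF.symm ρ H)⟩

end Mach

end Pool.Agent.MP0f3202
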