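import Pool.Agent.MP_0f3202_lc.Approx
import Pool.Agent.MP_0f3202_lc.Mach

/-! Cones of a layered circuit, packing, and the assembled protocol. -/

namespace Pool.Agent.MP0f3202

open Finset

section cone

variable {n : ℕ} {Sr : Type} {w : (Fin n → Bool) → Sr → Bool} {Q : Sr → Prop}

/-- `F` is a formula of depth `j` in sources satisfying `Q`, with the two degree exponents -/
def Cone (w : (Fin n → Bool) → Sr → Bool) (Q : Sr → Prop) (j a b : ℕ)
    (F : (Fin n → Bool) → Bool) : Prop :=
  ∃ (src : (Fin j → Bool) → Sr) (f : ((Fin j → Bool) → Bool) → Bool),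
    A f (2 ^ a) ∧ Alg 0 f (2 ^ b) ∧ (∀ x, f (fun l => w x (src l)) = F x) ∧ ∀ l, Q (src l)

theorem Cone.mono {j a b a' b' : ℕ} {F : (Fin n → Bool) → Bool} (h : Cone w Q j a b F)
    (ha : a ≤ a') (hb : b ≤ b') : Cone w Q j a' b' F := by
  obtain ⟨src, f, h1, h2, h3, h4⟩ := h
  exact ⟨src, f, h1.mono (pow_le_pow_right₀ (by norm_num) ha),
    h2.mono (Nat.pow_le_pow_right (by norm_num) hb), h3, h4⟩

theorem Cone.leaf {s : Sr} (hs : Q s) {F : (Fin n → Bool) → Bool} (hF : ∀ x, w x s = F x)
    (j a b : ℕ) : Cone w Q j a b F :=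
  Cone.mono (a := 0) (b := 0) ⟨fun _ => s, fun y => y default, by rw [pow_zero]; exact A.leaf _,
    Alg.leaf _, hF, fun _ => hs⟩ a.zero_le b.zero_le

theorem Cone.const {s : Sr} (hs : Q s) (c : Bool) (j a b : ℕ) : Cone w Q j a b (fun _ => c) :=
  ⟨fun _ => s, fun _ => c, A.const c _, Alg.const c _, fun _ => rfl, fun _ => hs⟩

theorem Cone.lift {j k a b : ℕ} {F : (Fin n → Bool) → Bool} (h : Cone w Q j a b F) (hj : j ≤ k) :
    Cone w Q k a b F := by
  induction k, hj using Nat.le_induction with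
  | base => exact h
  | succ k _ ih =>
    obtain ⟨src, f, h1, h2, h3, h4⟩ := ih
    exact ⟨fun l => src (Fin.tail l), fun y => f fun l => y (Fin.cons false l),
      h1.reindex _, h2.reindex _, fun x => by simpa using h3 x, fun l => h4 _⟩

theorem Cone.gate {j a b : ℕ} {F F' : (Fin n → Bool) → Bool} (h : Cone w Q j a b F)
    (h' : Cone w Q j a b F') (op : Bool → Bool → Bool) :
    Cone w Q (j + 1) ((1 + if isX op then 1 else 0) + a) ((if isAnd op then 1 else 0) + b)
      (fun x => op (F x) (F' x)) := by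
  obtain ⟨src, f, h1, h2, h3, h4⟩ := h
  obtain ⟨src', f', h1', h2', h3', h4'⟩ := h'
  refine ⟨fun l => if l 0 then src (Fin.tail l) else src' (Fin.tail l),
    fun y => op (f fun l => y (Fin.cons true l)) (f' fun l => y (Fin.cons false l)), ?_, ?_,
    fun x => ?_, fun l => ?_⟩
  · rw [pow_add]; exact (h1.reindex _).gate (h1'.reindex _) op
  · rw [pow_add]; exact (h2.reindex _).gate (h2'.reindex _) op
  · simp [h3, h3']
  · beta_reduce
    split_ifs
    · exact h4 _
    · exact h4' _

variable {m s d : ℕ} (C : Circ n m s d)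

theorem Circ.xc_mono {j k : ℕ} (h : j ≤ k) : ∀ v, C.xc j v ≤ C.xc k v ∧ C.ac j v ≤ C.ac k v := by
  induction j generalizing k with
  | zero => intro v; simp [Circ.xc, Circ.ac]
  | succ j ih =>
    intro v
    obtain ⟨k, rfl⟩ : ∃ k', k = k' + 1 := ⟨k - 1, by omega⟩
    have := ih (k := k) (by omega)
    simp only [Circ.xc, Circ.ac]
    cases C.lab v with
    | inp i => simp
    | const c => simp
    | gate op a b =>
      exact ⟨Nat.add_le_add_left (max_le_max (this a).1 (this b).1) _,
        Nat.add_le_add_left (max_le_max (this a).2 (this b).2) _⟩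

theorem Circ.cone {s0 : Sr} (h0 : Q s0) (hin : ∀ i, ∃ r, Q r ∧ ∀ x, w x r = x i) (j : ℕ) :
    ∀ v, (∀ u, C.lev u + j = C.lev v → ∃ r, Q r ∧ ∀ x, w x r = C.val x u) →
      Cone w Q j (j + C.xc j v) (C.ac j v) (fun x => C.val x v) := by
  induction j with
  | zero =>
    intro v h
    obtain ⟨r, hr, hv⟩ := h v rfl
    exact Cone.leaf hr hv _ _ _
  | succ j ih =>
    intro v h
    cases hl : C.lab v with
    | inp i =>
      obtain ⟨r, hr, hv⟩ := hin i
      exact Cone.leaf hr (fun x => by simp [hv, Circ.val, Circ.ev, hl]) _ _ _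
    | const c =>
      have : (fun x => C.val x v) = fun _ => c := by funext x; simp [Circ.val, Circ.ev, hl]
      rw [this]; exact Cone.const h0 c _ _ _
    | gate op a b =>
      obtain ⟨ha, hb⟩ := C.wire v op a b hl
      have : (fun x => C.val x v) = fun x => op (C.val x a) (C.val x b) := by
        funext x
        rw [Circ.val, Circ.ev, hl, Circ.val, Circ.val, ha, hb]
      rw [this]
      have h1 := (ih a fun u hu => h u (by omega)).mono
        (Nat.add_le_add_left (le_max_left _ (C.xc j b)) j) (le_max_left _ (C.ac j b))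
      have h2 := (ih b fun u hu => h u (by omega)).mono
        (Nat.add_le_add_left (le_max_right (C.xc j a) _) j) (le_max_right (C.ac j a) _)
      refine (h1.gate h2 op).mono (le_of_eq ?_) (le_of_eq ?_)
      · simp only [Circ.xc, hl]; ring
      · simp only [Circ.ac, hl]

end cone

theorem storage_le (n G k τ l T : ℕ) (hT : 3 ≤ T) :
    2 ^ n * (2 ^ (τ + l) * 2 ^ (τ + k * T)) ^ (G * (τ * ((2 ^ k) ^ T * (2 ^ (τ + l)) ^ T) + 1)) ≤
      2 ^ (n + G * 2 ^ (2 * ((k + τ + l) * T))) := by
  rw [← pow_add, ← pow_mul, ← pow_add, ← pow_mul, ← pow_mul, ← pow_add]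
  refine Nat.pow_le_pow_right (by norm_num) (Nat.add_le_add_left ?_ _)
  have e : k * T + (τ + l) * T = (k + τ + l) * T := by ring
  rw [e]
  have h1 : τ * 2 ^ ((k + τ + l) * T) + 1 ≤ 2 ^ τ * 2 ^ ((k + τ + l) * T) := by
    have a1 : τ + 1 ≤ 2 ^ τ := Nat.lt_two_pow_self
    have a2 : 1 ≤ 2 ^ ((k + τ + l) * T) := Nat.one_le_two_pow
    nlinarith
  have h2 : τ + l + (τ + k * T) ≤ 2 ^ (τ + l + (τ + k * T)) := Nat.lt_two_pow_self.le
  have h3 : 2 ^ (τ + l + (τ + k * T)) * 2 ^ τ ≤ 2 ^ ((k + τ + l) * T) := by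
    rw [← pow_add]
    refine Nat.pow_le_pow_right (by norm_num) ?_
    nlinarith [Nat.mul_le_mul_left τ hT, Nat.mul_le_mul_left l hT]
  calc _ ≤ 2 ^ (τ + l + (τ + k * T)) * (G * (2 ^ τ * 2 ^ ((k + τ + l) * T))) :=
        Nat.mul_le_mul h2 (Nat.mul_le_mul_left _ h1)
    _ = G * ((2 ^ (τ + l + (τ + k * T)) * 2 ^ τ) * 2 ^ ((k + τ + l) * T)) := by ring
    _ ≤ G * (2 ^ ((k + τ + l) * T) * 2 ^ ((k + τ + l) * T)) := by gcongr
    _ = _ := by rw [← pow_add, two_mul]

theorem machine {N n m k τ e : ℕ} (hN : 0 < N) (owner : Fin n → Fin N) {Γ : Type} [Fintype Γ]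
    (rk : Γ → ℕ) (Y : (Fin n → Bool) → Γ → Fin τ → Bool) (masked : Γ → Bool)
    (F : (Fin n → Bool) → Fin m → Bool)
    (hout : ∀ j, ∃ a : Γ × Fin τ, masked a.1 = false ∧ ∀ x, F x j = Y x a.1 a.2)
    (hc : ∀ g μ, ∃ a b, (b ≤ e ∨ a ≤ 2 * e + 1) ∧ Cone (sv Y) (fun r =>
      (∀ g' μ', r = some (Sum.inr (g', μ')) → rk g' < rk g) ∧
        (masked g = false → ∀ x x', F x = F x' → sv Y x r = sv Y x' r)) k a b (fun x => Y x g μ)) :
    ∃ P : Prot N n m (n + Fintype.card Γ *
        2 ^ (2 * ((k + τ + (Nat.log 2 N + 3)) * 2 ^ (2 * τ + 7 + e)))),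
      P.comm = n + N * (τ + (Nat.log 2 N + 3)) * Fintype.card Γ ∧ P.Secure owner F := by
  classical
  choose a b hab src f h1 h2 h3 h4 using hc
  have h5 := fun g μ => approx2 (τ := τ) (h1 g μ) (h2 g μ) (hab g μ)
  choose cf hcf using h5
  choose og hog using hout
  have hT : 3 ≤ 2 ^ (2 * τ + 7 + e) :=
    le_trans (by norm_num) (Nat.pow_le_pow_right (n := 2) (i := 2) (by norm_num) (by omega))
  generalize 2 ^ (2 * τ + 7 + e) = T at *
  obtain ⟨L, hL⟩ : ∃ L, L = Nat.log 2 N := ⟨_, rfl⟩
  have hNL : N ≤ 2 ^ (L + 1) := hL ▸ (Nat.lt_pow_succ_log_self (by norm_num) N).le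
  rw [← hL]
  let e0 := (Fintype.equivFin Γ).symm
  let σ := Tuple.sort (rk ∘ e0)
  have hσ : Monotone (rk ∘ e0 ∘ σ) := Tuple.monotone_sort (rk ∘ e0)
  have hcard : Fintype.card ((Fin n → Bool) × (Ent τ T (2 ^ (τ + (L + 3))) (Fin k → Bool) Γ →
      ZMod (2 ^ (τ + (L + 3)) * 2 ^ (τ + k * T)))) ≤
      Fintype.card (Fin (n + Fintype.card Γ * 2 ^ (2 * ((k + τ + (L + 3)) * T))) → Bool) := by
    simp only [Fintype.card_prod, Fintype.card_fun, Fintype.card_bool, Fintype.card_fin,
      ZMod.card, Fintype.card_option]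
    exact storage_le _ _ _ _ _ _ hT
  obtain ⟨en⟩ := Function.Embedding.nonempty_of_card_le hcard
  let X : Mach N n m τ T (Fintype.card Γ) (2 ^ (τ + (L + 3)) * 2 ^ (τ + k * T)) (2 ^ (τ + (L + 3)))
      (n + Fintype.card Γ * 2 ^ (2 * ((k + τ + (L + 3)) * T))) (Fin k → Bool) Γ :=
    { B := 2 ^ (τ + k * T)
      hf := 2 ^ (L + 2) * 2 ^ (τ + k * T)
      lq := τ + (L + 3)
      owner := owner
      p0 := ⟨0, hN⟩
      pos := (σ.trans e0).symm
      src := src
      cf := cf
      Y := Y
      masked := masked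
      F := F
      og := og
      en := en
      de := Function.invFun en
      hde := Function.leftInverse_invFun en.injective
      hq := rfl
      hq1 := Nat.one_lt_two_pow (by omega)
      hM := rfl
      hu := by ring
      hN := Nat.mul_le_mul_right _ (by rw [pow_succ]; omega)
      hJ := by
        simp only [Fintype.card_fun, Fintype.card_bool, Fintype.card_fin]
        rw [← pow_mul, pow_add 2 τ]
        refine Nat.mul_le_mul ?_ (Nat.mul_le_mul_right _ Nat.lt_two_pow_self.le)
        exact Nat.pow_le_pow_right (n := 2) (i := 2) (by norm_num) (by omega)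
      hord := fun g μ i g' μ' h => by
        have := (h4 g μ i).1 g' μ' h
        by_contra hc
        have h6 := hσ (not_lt.1 hc)
        simp only [Function.comp, Equiv.symm_trans_apply, Equiv.apply_symm_apply] at h6
        omega
      happ := fun x g μ => by
        have := hcf g μ fun l => sv Y x (src g μ l)
        rwa [h3] at this
      hun := fun g hg x x' h μ i => (h4 g μ i).2 hg x x' h
      hout := hog }
  exact ⟨X.prot, X.comm_eq, X.secure⟩

theorem pack (X : Type) [Fintype X] {τ : ℕ} (hτ : 0 < τ) :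
    ∃ nd : Fin (Fintype.card X / τ + 1) → Fin τ → Option X, ∀ x, ∃ a μ, nd a μ = some x := by
  refine ⟨fun a μ => if h : a * τ + μ < Fintype.card X then
    some ((Fintype.equivFin X).symm ⟨_, h⟩) else none, fun x => ?_⟩
  have h := (Fintype.equivFin X x).2
  refine ⟨⟨Fintype.equivFin X x / τ, Nat.lt_succ_of_le (Nat.div_le_div_right h.le)⟩,
    ⟨Fintype.equivFin X x % τ, Nat.mod_lt _ hτ⟩, ?_⟩
  simp [Nat.div_add_mod']

theorem offset {n m s d : ℕ} (C : Circ n m s d) {k : ℕ} (hk : 0 < k) (τ : ℕ) :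
    ∃ off < k, k * ∑ l ∈ (range d).filter (fun l => l % k = off),
      (Fintype.card {v // C.lev v = l} + τ) ≤ s + τ * d := by
  have h1 : ∑ l ∈ range d, (Fintype.card {v // C.lev v = l} + τ) = s + τ * d := by
    have := card_eq_sum_card_fiberwise (s := (univ : Finset (Fin s))) (t := range d) (f := C.lev)
      fun v _ => by simpa using C.lev_lt v
    simp only [card_univ, Fintype.card_fin] at this
    simp only [sum_add_distrib, Fintype.card_subtype, ← this, sum_const, card_range, smul_eq_mul,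
      mul_comm]
  have h2 := sum_fiberwise_of_maps_to (s := range d) (t := range k) (g := fun l => l % k)
    (fun l _ => mem_range.2 (Nat.mod_lt _ hk)) fun l => Fintype.card {v // C.lev v = l} + τ
  obtain ⟨off, ho, h⟩ := exists_le_of_sum_le (s := range k) ⟨0, mem_range.2 hk⟩
    (f := fun off => k * ∑ l ∈ (range d).filter (fun l => l % k = off),
      (Fintype.card {v // C.lev v = l} + τ)) (g := fun _ => s + τ * d)
    (by rw [← mul_sum, h2, h1]; simp)
  exact ⟨off, mem_range.1 ho, h⟩

theorem main {N n m s d k τ e : ℕ} (hN : 0 < N) (hk : 0 < k) (hτ : 0 < τ) (C : Circ n m s d)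
    (owner : Fin n → Fin N) (he : ∀ v, C.ac k v ≤ e ∨ k + C.xc k v ≤ 2 * e + 1) :
    ∃ G, k * τ * G ≤ s + τ * d + 2 * k * (m + τ) ∧
      ∃ P : Prot N n m (n + G * 2 ^ (2 * ((k + τ + (Nat.log 2 N + 3)) * 2 ^ (2 * τ + 7 + e)))),
        P.comm = n + N * (τ + (Nat.log 2 N + 3)) * G ∧ P.Secure owner C.fn := by
  obtain ⟨off, hoff, hsum⟩ := offset C hk τ
  choose nd hnd using fun l : ℕ => pack {v // C.lev v = l} hτ
  obtain ⟨no, hno⟩ := pack (Fin m) hτ
  let Γ := (Σ l : (range d).filter (fun l => l % k = off),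
    Fin (Fintype.card {v // C.lev v = l} / τ + 1)) ⊕ Fin (Fintype.card (Fin m) / τ + 1) × Bool
  let rk : Γ → ℕ := Sum.elim (fun a => a.1) fun a => if a.2 then d + 1 else d
  let ND : Γ → Fin τ → Option (Fin s) :=
    Sum.elim (fun a μ => (nd a.1 a.2 μ).map Subtype.val) fun a μ => (no a.1 μ).map C.out
  let Y : (Fin n → Bool) → Γ → Fin τ → Bool := fun x g μ => (ND g μ).elim false (C.val x)
  let masked : Γ → Bool := Sum.elim (fun _ => true) fun a => !a.2
  refine ⟨Fintype.card Γ, ?_, machine hN owner rk Y masked C.fn (fun j => ?_) fun g μ => ?_⟩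
  · have h1 : Fintype.card Γ = ∑ l ∈ (range d).filter (fun l => l % k = off),
        (Fintype.card {v // C.lev v = l} / τ + 1) + (m / τ + 1) * 2 := by
      simp only [Γ, Fintype.card_sum, Fintype.card_sigma, Fintype.card_fin, Fintype.card_prod,
        Fintype.card_bool]
      rw [sum_coe_sort _ fun l => Fintype.card {v // C.lev v = l} / τ + 1]
    have h2 : ∀ c : ℕ, τ * (c / τ + 1) ≤ c + τ := fun c => by
      rw [mul_add, mul_one]; exact Nat.add_le_add_right (Nat.mul_div_le _ _) _
    have h3 : τ * ∑ l ∈ (range d).filter (fun l => l % k = off),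
        (Fintype.card {v // C.lev v = l} / τ + 1) ≤ ∑ l ∈ (range d).filter (fun l => l % k = off),
        (Fintype.card {v // C.lev v = l} + τ) := by
      rw [mul_sum]; exact sum_le_sum fun l _ => h2 _
    rw [h1]
    nlinarith [Nat.mul_le_mul_left k h3, Nat.mul_le_mul_left k (h2 m)]
  · obtain ⟨a, μ, h⟩ := hno j
    exact ⟨(Sum.inr (a, true), μ), rfl, fun x => by simp [Y, ND, h, Circ.fn]⟩
  · have home : ∀ u, C.lev u % k = off → ∃ g' μ', rk g' = C.lev u ∧ ND g' μ' = some u := by
      intro u hu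
      obtain ⟨a, μ', h⟩ := hnd (C.lev u) ⟨u, rfl⟩
      exact ⟨Sum.inl ⟨⟨C.lev u, by simp [C.lev_lt u, hu]⟩, a⟩, μ', rfl, by simp [ND, h]⟩
    cases hv : ND g μ with
    | none =>
      refine ⟨0, 0, Or.inl e.zero_le, ?_⟩
      simp only [Y, hv, Option.elim]
      exact Cone.const (s := none) ⟨by simp, fun _ _ _ _ => rfl⟩ _ _ _ _
    | some v =>
      cases hm : masked g with
      | false =>
        obtain ⟨a, rfl⟩ : ∃ a, g = Sum.inr (a, true) := by
          rcases g with g | ⟨a, _ | _⟩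
          · simp [masked] at hm
          · simp [masked] at hm
          · exact ⟨a, rfl⟩
        refine ⟨0, 0, Or.inl e.zero_le,
          Cone.leaf (s := some (Sum.inr (Sum.inr (a, false), μ))) ⟨?_, ?_⟩ (fun _ => rfl) _ _ _⟩
        · rintro _ _ ⟨⟩
          simp [rk]
        · intro _ x x' h
          simp only [sv, Y, ND, Sum.elim_inr]
          cases no a μ with
          | none => rfl
          | some j => exact congrFun h j
      | true =>
        obtain ⟨j, hj, hl⟩ : ∃ j ≤ k, ∀ u, C.lev u + j = C.lev v →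
            C.lev u % k = off ∧ C.lev u < rk g := by
          rcases g with ⟨⟨l, hl⟩, a⟩ | ⟨a, _ | _⟩
          · have h1 : C.lev v = l := by
              simp only [ND, Sum.elim_inl, Option.map_eq_some_iff] at hv
              obtain ⟨u, _, rfl⟩ := hv
              exact u.2
            refine ⟨k, le_rfl, fun u hu => ⟨?_, by simp only [rk, Sum.elim_inl]; omega⟩⟩
            rw [← (mem_filter.1 hl).2, ← h1, ← hu, Nat.add_mod_right]
          · by_cases h : off ≤ C.lev v
            · refine ⟨(C.lev v - off) % k, (Nat.mod_lt _ hk).le, fun u hu => ⟨?_, C.lev_lt u⟩⟩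
              have h1 := Nat.div_add_mod (C.lev v - off) k
              have h2 : C.lev u = off + k * ((C.lev v - off) / k) := by omega
              rw [h2, Nat.add_mul_mod_self_left, Nat.mod_eq_of_lt hoff]
            · exact ⟨k, le_rfl, fun u hu => by omega⟩
          · simp [masked] at hm
        refine ⟨k + C.xc k v, C.ac k v, he v, ?_⟩
        simp only [Y, hv, Option.elim]
        refine ((C.cone (s0 := none) ⟨by simp, by simp⟩
          (fun i => ⟨some (Sum.inl i), ⟨by simp, by simp⟩, fun _ => rfl⟩) j v fun u hu => ?_).lift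
            hj).mono (Nat.add_le_add hj (C.xc_mono hj v).1) (C.xc_mono hj v).2
        obtain ⟨g', μ', h1, h2⟩ := home u (hl u hu).1
        refine ⟨some (Sum.inr (g', μ')), ⟨?_, by simp⟩, fun x => by simp [sv, h2]⟩
        rintro _ _ ⟨⟩
        rw [h1]; exact (hl u hu).2

end Pool.Agent.MP0f3202
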